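import Pool.Agent.Strip051.LB.ChA00V1_pp_022.Defs

/-! # LINE tight chart ChA00V1_pp_022: boxes, part 1 -/

namespace Pool.Agent.Strip051.LB.ChA00V1_pp_022

open Pool.Agent.Strip051.Box Pool.Agent.Strip051.Box2

set_option maxRecDepth 100000

theorem c0 : chk f 60 (b0) = true := by decide +kernel

end Pool.Agent.Strip051.LB.ChA00V1_pp_022
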