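import Pool.Agent.Strip051.Box.C2
import Pool.Agent.Strip051.Box.S30
import Pool.Agent.Strip051.LB.Fc.F2

/-! # LINE tight chart ChA00V1_pp_022 -/

namespace Pool.Agent.Strip051.LB.ChA00V1_pp_022

open Pool.Agent.Strip051.Box Pool.Agent.Strip051.Box2

open Pool.Agent.Strip051.LB.Fc Pool.Agent.Strip051.LB.Fc.F2 Pool.Agent.Strip051.LB.Fn Pool.Agent.Strip051.LB.Fn.F2

/-- coordinates of a point of the box -/
def In (b : Bx) (E : Pt) (x1 x2 : ℝ) : Prop :=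
  (S : ℝ) * x1 = ((b.p1 : ℝ) - b.n1) + b.q1 * E.e1 ∧ (S : ℝ) * x2 = ((b.p2 : ℝ) - b.n2) + b.q2 * E.e2

variable {b : Bx} {E : Pt} {x1 x2 : ℝ}

def t0 (b : Bx) : TM := X1 b
noncomputable def v0 (x1 _x2 : ℝ) : ℝ := x1
theorem h0 (h : In b E x1 x2) : Enc S E (t0 b) (v0 x1 x2) := enc_X1 h.1

def t1 (b : Bx) : TM := X2 b
noncomputable def v1 (_x1 x2 : ℝ) : ℝ := x2
theorem h1 (h : In b E x1 x2) : Enc S E (t1 b) (v1 x1 x2) := enc_X2 h.2

def t2 (_b : Bx) : TM := tconst 1859775393 0 1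
noncomputable def v2 (_x1 _x2 : ℝ) : ℝ := Real.sqrt ((3 : ℕ) : ℝ)
theorem h2 (_h : In b E x1 x2) : Enc S E (t2 b) (v2 x1 x2) := enc_sqrtn E (by decide) (by decide)

def t3 (b : Bx) : TM := tscale 1 2 (t2 b)
noncomputable def v3 (x1 x2 : ℝ) : ℝ := ((1 : ℕ) : ℝ) / ((2 : ℕ) : ℝ) * v2 x1 x2
theorem h3 (h : In b E x1 x2) : Enc S E (t3 b) (v3 x1 x2) := enc_scale 1 (by norm_num) (h2 h)

def t4 (b : Bx) : TM := tsq S (t0 b)
noncomputable def v4 (x1 x2 : ℝ) : ℝ := (v0 x1 x2) ^ 2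
theorem h4 (h : In b E x1 x2) : Enc S E (t4 b) (v4 x1 x2) := enc_sq hS (h0 h)

def t5 (_b : Bx) : TM := tconst (Nat.mul 1 S) 0 0
noncomputable def v5 (_x1 _x2 : ℝ) : ℝ := ((1 : ℕ) : ℝ)
theorem h5 (_h : In b E x1 x2) : Enc S E (t5 b) (v5 x1 x2) := enc_nc E 1

def t6 (b : Bx) : TM := tsub (t5 b) (t4 b)
noncomputable def v6 (x1 x2 : ℝ) : ℝ := v5 x1 x2 - v4 x1 x2
theorem h6 (h : In b E x1 x2) : Enc S E (t6 b) (v6 x1 x2) := enc_sub (h5 h) (h4 h)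

def t7 (b : Bx) : TM := tsqrt S (t6 b)
noncomputable def v7 (x1 x2 : ℝ) : ℝ := Real.sqrt (v6 x1 x2)
theorem h7 (h : In b E x1 x2) : Enc S E (t7 b) (v7 x1 x2) := enc_sqrt hS (h6 h)

def t9 (_b : Bx) : TM := tconst (Nat.div (Nat.mul 1 S) 2) 0 1
noncomputable def v9 (_x1 _x2 : ℝ) : ℝ := ((1 : ℕ) : ℝ) / ((2 : ℕ) : ℝ)
theorem h9 (_h : In b E x1 x2) : Enc S E (t9 b) (v9 x1 x2) := enc_rat E 1 (by norm_num)

def t10 (b : Bx) : TM := tscale 1 2 (t7 b)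
noncomputable def v10 (x1 x2 : ℝ) : ℝ := ((1 : ℕ) : ℝ) / ((2 : ℕ) : ℝ) * v7 x1 x2
theorem h10 (h : In b E x1 x2) : Enc S E (t10 b) (v10 x1 x2) := enc_scale 1 (by norm_num) (h7 h)

def t11 (b : Bx) : TM := tmul S (t0 b) (t3 b)
noncomputable def v11 (x1 x2 : ℝ) : ℝ := v0 x1 x2 * v3 x1 x2
theorem h11 (h : In b E x1 x2) : Enc S E (t11 b) (v11 x1 x2) := enc_mul hS (h0 h) (h3 h)

def t12 (b : Bx) : TM := tsub (t10 b) (t11 b)
noncomputable def v12 (x1 x2 : ℝ) : ℝ := v10 x1 x2 - v11 x1 x2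
theorem h12 (h : In b E x1 x2) : Enc S E (t12 b) (v12 x1 x2) := enc_sub (h10 h) (h11 h)

def t13 (b : Bx) : TM := tscale 1 2 (t0 b)
noncomputable def v13 (x1 x2 : ℝ) : ℝ := ((1 : ℕ) : ℝ) / ((2 : ℕ) : ℝ) * v0 x1 x2
theorem h13 (h : In b E x1 x2) : Enc S E (t13 b) (v13 x1 x2) := enc_scale 1 (by norm_num) (h0 h)

def t14 (b : Bx) : TM := tmul S (t7 b) (t3 b)
noncomputable def v14 (x1 x2 : ℝ) : ℝ := v7 x1 x2 * v3 x1 x2
theorem h14 (h : In b E x1 x2) : Enc S E (t14 b) (v14 x1 x2) := enc_mul hS (h7 h) (h3 h)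

def t15 (b : Bx) : TM := tadd (t13 b) (t14 b)
noncomputable def v15 (x1 x2 : ℝ) : ℝ := v13 x1 x2 + v14 x1 x2
theorem h15 (h : In b E x1 x2) : Enc S E (t15 b) (v15 x1 x2) := enc_add (h13 h) (h14 h)

def t16 (b : Bx) : TM := tsub (t14 b) (t13 b)
noncomputable def v16 (x1 x2 : ℝ) : ℝ := v14 x1 x2 - v13 x1 x2
theorem h16 (h : In b E x1 x2) : Enc S E (t16 b) (v16 x1 x2) := enc_sub (h14 h) (h13 h)

def t18 (b : Bx) : TM := tmul S (t16 b) (t2 b)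
noncomputable def v18 (x1 x2 : ℝ) : ℝ := v16 x1 x2 * v2 x1 x2
theorem h18 (h : In b E x1 x2) : Enc S E (t18 b) (v18 x1 x2) := enc_mul hS (h16 h) (h2 h)

def t20 (b : Bx) : TM := tsub (t1 b) (t12 b)
noncomputable def v20 (x1 x2 : ℝ) : ℝ := v1 x1 x2 - v12 x1 x2
theorem h20 (h : In b E x1 x2) : Enc S E (t20 b) (v20 x1 x2) := enc_sub (h1 h) (h12 h)

def t21 (b : Bx) : TM := tsq S (t1 b)
noncomputable def v21 (x1 x2 : ℝ) : ℝ := (v1 x1 x2) ^ 2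
theorem h21 (h : In b E x1 x2) : Enc S E (t21 b) (v21 x1 x2) := enc_sq hS (h1 h)

def t22 (b : Bx) : TM := tsub (t5 b) (t21 b)
noncomputable def v22 (x1 x2 : ℝ) : ℝ := v5 x1 x2 - v21 x1 x2
theorem h22 (h : In b E x1 x2) : Enc S E (t22 b) (v22 x1 x2) := enc_sub (h5 h) (h21 h)

def t23 (b : Bx) : TM := tsqrt S (t22 b)
noncomputable def v23 (x1 x2 : ℝ) : ℝ := Real.sqrt (v22 x1 x2)
theorem h23 (h : In b E x1 x2) : Enc S E (t23 b) (v23 x1 x2) := enc_sqrt hS (h22 h)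

def t24 (b : Bx) : TM := tadd (t7 b) (t1 b)
noncomputable def v24 (x1 x2 : ℝ) : ℝ := v7 x1 x2 + v1 x1 x2
theorem h24 (h : In b E x1 x2) : Enc S E (t24 b) (v24 x1 x2) := enc_add (h7 h) (h1 h)

def t25 (b : Bx) : TM := tadd (t0 b) (t23 b)
noncomputable def v25 (x1 x2 : ℝ) : ℝ := v0 x1 x2 + v23 x1 x2
theorem h25 (h : In b E x1 x2) : Enc S E (t25 b) (v25 x1 x2) := enc_add (h0 h) (h23 h)

def t26 (b : Bx) : TM := tsub (t12 b) (t1 b)
noncomputable def v26 (x1 x2 : ℝ) : ℝ := v12 x1 x2 - v1 x1 x2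
theorem h26 (h : In b E x1 x2) : Enc S E (t26 b) (v26 x1 x2) := enc_sub (h12 h) (h1 h)

def t27 (b : Bx) : TM := tmul S (t2 b) (t0 b)
noncomputable def v27 (x1 x2 : ℝ) : ℝ := v2 x1 x2 * v0 x1 x2
theorem h27 (h : In b E x1 x2) : Enc S E (t27 b) (v27 x1 x2) := enc_mul hS (h2 h) (h0 h)

def t28 (b : Bx) : TM := tsub (t7 b) (t27 b)
noncomputable def v28 (x1 x2 : ℝ) : ℝ := v7 x1 x2 - v27 x1 x2
theorem h28 (h : In b E x1 x2) : Enc S E (t28 b) (v28 x1 x2) := enc_sub (h7 h) (h27 h)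

def t29 (b : Bx) : TM := tadd (t5 b) (t7 b)
noncomputable def v29 (x1 x2 : ℝ) : ℝ := v5 x1 x2 + v7 x1 x2
theorem h29 (h : In b E x1 x2) : Enc S E (t29 b) (v29 x1 x2) := enc_add (h5 h) (h7 h)

def t30 (b : Bx) : TM := tmul S (t28 b) (t29 b)
noncomputable def v30 (x1 x2 : ℝ) : ℝ := v28 x1 x2 * v29 x1 x2
theorem h30 (h : In b E x1 x2) : Enc S E (t30 b) (v30 x1 x2) := enc_mul hS (h28 h) (h29 h)

def t31 (b : Bx) : TM := tsub (t29 b) (t27 b)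
noncomputable def v31 (x1 x2 : ℝ) : ℝ := v29 x1 x2 - v27 x1 x2
theorem h31 (h : In b E x1 x2) : Enc S E (t31 b) (v31 x1 x2) := enc_sub (h29 h) (h27 h)

def t32 (b : Bx) : TM := tinv S (t31 b)
noncomputable def v32 (x1 x2 : ℝ) : ℝ := (v31 x1 x2)⁻¹
theorem h32 (h : In b E x1 x2) : Enc S E (t32 b) (v32 x1 x2) := enc_inv hS (h31 h)

def t33 (b : Bx) : TM := tmul S (t30 b) (t32 b)
noncomputable def v33 (x1 x2 : ℝ) : ℝ := v30 x1 x2 * v32 x1 x2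
theorem h33 (h : In b E x1 x2) : Enc S E (t33 b) (v33 x1 x2) := enc_mul hS (h30 h) (h32 h)

def t34 (b : Bx) : TM := tsq S (t24 b)
noncomputable def v34 (x1 x2 : ℝ) : ℝ := (v24 x1 x2) ^ 2
theorem h34 (h : In b E x1 x2) : Enc S E (t34 b) (v34 x1 x2) := enc_sq hS (h24 h)

def t35 (_b : Bx) : TM := tconst (Nat.mul 3 S) 0 0
noncomputable def v35 (_x1 _x2 : ℝ) : ℝ := ((3 : ℕ) : ℝ)
theorem h35 (_h : In b E x1 x2) : Enc S E (t35 b) (v35 x1 x2) := enc_nc E 3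

def t36 (b : Bx) : TM := tsub (t35 b) (t34 b)
noncomputable def v36 (x1 x2 : ℝ) : ℝ := v35 x1 x2 - v34 x1 x2
theorem h36 (h : In b E x1 x2) : Enc S E (t36 b) (v36 x1 x2) := enc_sub (h35 h) (h34 h)

def t37 (b : Bx) : TM := tsq S (t25 b)
noncomputable def v37 (x1 x2 : ℝ) : ℝ := (v25 x1 x2) ^ 2
theorem h37 (h : In b E x1 x2) : Enc S E (t37 b) (v37 x1 x2) := enc_sq hS (h25 h)

def t41 (b : Bx) : TM := tadd (t7 b) (t12 b)
noncomputable def v41 (x1 x2 : ℝ) : ℝ := v7 x1 x2 + v12 x1 x2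
theorem h41 (h : In b E x1 x2) : Enc S E (t41 b) (v41 x1 x2) := enc_add (h7 h) (h12 h)

def t43 (b : Bx) : TM := tadd (t24 b) (t41 b)
noncomputable def v43 (x1 x2 : ℝ) : ℝ := v24 x1 x2 + v41 x1 x2
theorem h43 (h : In b E x1 x2) : Enc S E (t43 b) (v43 x1 x2) := enc_add (h24 h) (h41 h)

def t47 (b : Bx) : TM := tadd (t1 b) (t12 b)
noncomputable def v47 (x1 x2 : ℝ) : ℝ := v1 x1 x2 + v12 x1 x2
theorem h47 (h : In b E x1 x2) : Enc S E (t47 b) (v47 x1 x2) := enc_add (h1 h) (h12 h)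

def t50 (b : Bx) : TM := tadd (t23 b) (t15 b)
noncomputable def v50 (x1 x2 : ℝ) : ℝ := v23 x1 x2 + v15 x1 x2
theorem h50 (h : In b E x1 x2) : Enc S E (t50 b) (v50 x1 x2) := enc_add (h23 h) (h15 h)

def t51 (b : Bx) : TM := tinv S (t50 b)
noncomputable def v51 (x1 x2 : ℝ) : ℝ := (v50 x1 x2)⁻¹
theorem h51 (h : In b E x1 x2) : Enc S E (t51 b) (v51 x1 x2) := enc_inv hS (h50 h)

def t52 (b : Bx) : TM := tmul S (t47 b) (t51 b)
noncomputable def v52 (x1 x2 : ℝ) : ℝ := v47 x1 x2 * v51 x1 x2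
theorem h52 (h : In b E x1 x2) : Enc S E (t52 b) (v52 x1 x2) := enc_mul hS (h47 h) (h51 h)

def t53 (b : Bx) : TM := tadd (t0 b) (t15 b)
noncomputable def v53 (x1 x2 : ℝ) : ℝ := v0 x1 x2 + v15 x1 x2
theorem h53 (h : In b E x1 x2) : Enc S E (t53 b) (v53 x1 x2) := enc_add (h0 h) (h15 h)

def t55 (b : Bx) : TM := tadd (t25 b) (t53 b)
noncomputable def v55 (x1 x2 : ℝ) : ℝ := v25 x1 x2 + v53 x1 x2
theorem h55 (h : In b E x1 x2) : Enc S E (t55 b) (v55 x1 x2) := enc_add (h25 h) (h53 h)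

def t56 (b : Bx) : TM := tmul S (t52 b) (t55 b)
noncomputable def v56 (x1 x2 : ℝ) : ℝ := v52 x1 x2 * v55 x1 x2
theorem h56 (h : In b E x1 x2) : Enc S E (t56 b) (v56 x1 x2) := enc_mul hS (h52 h) (h55 h)

def t58 (b : Bx) : TM := tsub (t43 b) (t56 b)
noncomputable def v58 (x1 x2 : ℝ) : ℝ := v43 x1 x2 - v56 x1 x2
theorem h58 (h : In b E x1 x2) : Enc S E (t58 b) (v58 x1 x2) := enc_sub (h43 h) (h56 h)

def t59 (b : Bx) : TM := tsub (t35 b) (t37 b)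
noncomputable def v59 (x1 x2 : ℝ) : ℝ := v35 x1 x2 - v37 x1 x2
theorem h59 (h : In b E x1 x2) : Enc S E (t59 b) (v59 x1 x2) := enc_sub (h35 h) (h37 h)

def t60 (b : Bx) : TM := tsqrt S (t59 b)
noncomputable def v60 (x1 x2 : ℝ) : ℝ := Real.sqrt (v59 x1 x2)
theorem h60 (h : In b E x1 x2) : Enc S E (t60 b) (v60 x1 x2) := enc_sqrt hS (h59 h)

def t63 (b : Bx) : TM := tadd (t60 b) (t35 b)
noncomputable def v63 (x1 x2 : ℝ) : ℝ := v60 x1 x2 + v35 x1 x2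
theorem h63 (h : In b E x1 x2) : Enc S E (t63 b) (v63 x1 x2) := enc_add (h60 h) (h35 h)

def t64 (b : Bx) : TM := tmul S (t2 b) (t25 b)
noncomputable def v64 (x1 x2 : ℝ) : ℝ := v2 x1 x2 * v25 x1 x2
theorem h64 (h : In b E x1 x2) : Enc S E (t64 b) (v64 x1 x2) := enc_mul hS (h2 h) (h25 h)

def t65 (b : Bx) : TM := tsub (t63 b) (t64 b)
noncomputable def v65 (x1 x2 : ℝ) : ℝ := v63 x1 x2 - v64 x1 x2
theorem h65 (h : In b E x1 x2) : Enc S E (t65 b) (v65 x1 x2) := enc_sub (h63 h) (h64 h)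

def t67 (b : Bx) : TM := tsub (t2 b) (t25 b)
noncomputable def v67 (x1 x2 : ℝ) : ℝ := v2 x1 x2 - v25 x1 x2
theorem h67 (h : In b E x1 x2) : Enc S E (t67 b) (v67 x1 x2) := enc_sub (h2 h) (h25 h)

def t68 (b : Bx) : TM := tnat 4 (t67 b)
noncomputable def v68 (x1 x2 : ℝ) : ℝ := ((4 : ℕ) : ℝ) * v67 x1 x2
theorem h68 (h : In b E x1 x2) : Enc S E (t68 b) (v68 x1 x2) := enc_nat 4 (h67 h)

def t69 (b : Bx) : TM := tinv S (t68 b)
noncomputable def v69 (x1 x2 : ℝ) : ℝ := (v68 x1 x2)⁻¹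
theorem h69 (h : In b E x1 x2) : Enc S E (t69 b) (v69 x1 x2) := enc_inv hS (h68 h)

def t73 (b : Bx) : TM := tadd (t60 b) (t18 b)
noncomputable def v73 (x1 x2 : ℝ) : ℝ := v60 x1 x2 + v18 x1 x2
theorem h73 (h : In b E x1 x2) : Enc S E (t73 b) (v73 x1 x2) := enc_add (h60 h) (h18 h)

def t74 (b : Bx) : TM := tinv S (t73 b)
noncomputable def v74 (x1 x2 : ℝ) : ℝ := (v73 x1 x2)⁻¹
theorem h74 (h : In b E x1 x2) : Enc S E (t74 b) (v74 x1 x2) := enc_inv hS (h73 h)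

def t75 (b : Bx) : TM := tmul S (t56 b) (t74 b)
noncomputable def v75 (x1 x2 : ℝ) : ℝ := v56 x1 x2 * v74 x1 x2
theorem h75 (h : In b E x1 x2) : Enc S E (t75 b) (v75 x1 x2) := enc_mul hS (h56 h) (h74 h)

def t76 (b : Bx) : TM := tneg (t75 b)
noncomputable def v76 (x1 x2 : ℝ) : ℝ := -(v75 x1 x2)
theorem h76 (h : In b E x1 x2) : Enc S E (t76 b) (v76 x1 x2) := enc_neg (h75 h)

def t77 (b : Bx) : TM := tmul S (t2 b) (t18 b)
noncomputable def v77 (x1 x2 : ℝ) : ℝ := v2 x1 x2 * v18 x1 x2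
theorem h77 (h : In b E x1 x2) : Enc S E (t77 b) (v77 x1 x2) := enc_mul hS (h2 h) (h18 h)

def t78 (b : Bx) : TM := tmul S (t2 b) (t75 b)
noncomputable def v78 (x1 x2 : ℝ) : ℝ := v2 x1 x2 * v75 x1 x2
theorem h78 (h : In b E x1 x2) : Enc S E (t78 b) (v78 x1 x2) := enc_mul hS (h2 h) (h75 h)

def t79 (b : Bx) : TM := tneg (t78 b)
noncomputable def v79 (x1 x2 : ℝ) : ℝ := -(v78 x1 x2)
theorem h79 (h : In b E x1 x2) : Enc S E (t79 b) (v79 x1 x2) := enc_neg (h78 h)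

def t80 (b : Bx) : TM := tsub (t77 b) (t53 b)
noncomputable def v80 (x1 x2 : ℝ) : ℝ := v77 x1 x2 - v53 x1 x2
theorem h80 (h : In b E x1 x2) : Enc S E (t80 b) (v80 x1 x2) := enc_sub (h77 h) (h53 h)

def t81 (b : Bx) : TM := tsub (t79 b) (t52 b)
noncomputable def v81 (x1 x2 : ℝ) : ℝ := v79 x1 x2 - v52 x1 x2
theorem h81 (h : In b E x1 x2) : Enc S E (t81 b) (v81 x1 x2) := enc_sub (h79 h) (h52 h)

def t82 (b : Bx) : TM := tadd (t18 b) (t35 b)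
noncomputable def v82 (x1 x2 : ℝ) : ℝ := v18 x1 x2 + v35 x1 x2
theorem h82 (h : In b E x1 x2) : Enc S E (t82 b) (v82 x1 x2) := enc_add (h18 h) (h35 h)

def t83 (b : Bx) : TM := tmul S (t2 b) (t53 b)
noncomputable def v83 (x1 x2 : ℝ) : ℝ := v2 x1 x2 * v53 x1 x2
theorem h83 (h : In b E x1 x2) : Enc S E (t83 b) (v83 x1 x2) := enc_mul hS (h2 h) (h53 h)

def t84 (b : Bx) : TM := tmul S (t2 b) (t52 b)
noncomputable def v84 (x1 x2 : ℝ) : ℝ := v2 x1 x2 * v52 x1 x2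
theorem h84 (h : In b E x1 x2) : Enc S E (t84 b) (v84 x1 x2) := enc_mul hS (h2 h) (h52 h)

def t85 (b : Bx) : TM := tsub (t82 b) (t83 b)
noncomputable def v85 (x1 x2 : ℝ) : ℝ := v82 x1 x2 - v83 x1 x2
theorem h85 (h : In b E x1 x2) : Enc S E (t85 b) (v85 x1 x2) := enc_sub (h82 h) (h83 h)

def t86 (b : Bx) : TM := tsub (t76 b) (t84 b)
noncomputable def v86 (x1 x2 : ℝ) : ℝ := v76 x1 x2 - v84 x1 x2
theorem h86 (h : In b E x1 x2) : Enc S E (t86 b) (v86 x1 x2) := enc_sub (h76 h) (h84 h)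

def t87 (b : Bx) : TM := tmul S (t80 b) (t85 b)
noncomputable def v87 (x1 x2 : ℝ) : ℝ := v80 x1 x2 * v85 x1 x2
theorem h87 (h : In b E x1 x2) : Enc S E (t87 b) (v87 x1 x2) := enc_mul hS (h80 h) (h85 h)

def t88 (b : Bx) : TM := tmul S (t81 b) (t65 b)
noncomputable def v88 (x1 x2 : ℝ) : ℝ := v81 x1 x2 * v65 x1 x2
theorem h88 (h : In b E x1 x2) : Enc S E (t88 b) (v88 x1 x2) := enc_mul hS (h81 h) (h65 h)

def t89 (b : Bx) : TM := tmul S (t80 b) (t86 b)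
noncomputable def v89 (x1 x2 : ℝ) : ℝ := v80 x1 x2 * v86 x1 x2
theorem h89 (h : In b E x1 x2) : Enc S E (t89 b) (v89 x1 x2) := enc_mul hS (h80 h) (h86 h)

def t90 (b : Bx) : TM := tadd (t88 b) (t89 b)
noncomputable def v90 (x1 x2 : ℝ) : ℝ := v88 x1 x2 + v89 x1 x2
theorem h90 (h : In b E x1 x2) : Enc S E (t90 b) (v90 x1 x2) := enc_add (h88 h) (h89 h)

def t91 (b : Bx) : TM := tsub (t2 b) (t53 b)
noncomputable def v91 (x1 x2 : ℝ) : ℝ := v2 x1 x2 - v53 x1 x2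
theorem h91 (h : In b E x1 x2) : Enc S E (t91 b) (v91 x1 x2) := enc_sub (h2 h) (h53 h)

def t93 (b : Bx) : TM := tnat 4 (t91 b)
noncomputable def v93 (x1 x2 : ℝ) : ℝ := ((4 : ℕ) : ℝ) * v91 x1 x2
theorem h93 (h : In b E x1 x2) : Enc S E (t93 b) (v93 x1 x2) := enc_nat 4 (h91 h)

def t94 (b : Bx) : TM := tnat 4 (t52 b)
noncomputable def v94 (x1 x2 : ℝ) : ℝ := ((4 : ℕ) : ℝ) * v52 x1 x2
theorem h94 (h : In b E x1 x2) : Enc S E (t94 b) (v94 x1 x2) := enc_nat 4 (h52 h)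

def t96 (b : Bx) : TM := tinv S (t93 b)
noncomputable def v96 (x1 x2 : ℝ) : ℝ := (v93 x1 x2)⁻¹
theorem h96 (h : In b E x1 x2) : Enc S E (t96 b) (v96 x1 x2) := enc_inv hS (h93 h)

def t97 (b : Bx) : TM := tmul S (t69 b) (t96 b)
noncomputable def v97 (x1 x2 : ℝ) : ℝ := v69 x1 x2 * v96 x1 x2
theorem h97 (h : In b E x1 x2) : Enc S E (t97 b) (v97 x1 x2) := enc_mul hS (h69 h) (h96 h)

def t98 (b : Bx) : TM := tmul S (t94 b) (t97 b)
noncomputable def v98 (x1 x2 : ℝ) : ℝ := v94 x1 x2 * v97 x1 x2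
theorem h98 (h : In b E x1 x2) : Enc S E (t98 b) (v98 x1 x2) := enc_mul hS (h94 h) (h97 h)

def t101 (b : Bx) : TM := tmul S (t90 b) (t69 b)
noncomputable def v101 (x1 x2 : ℝ) : ℝ := v90 x1 x2 * v69 x1 x2
theorem h101 (h : In b E x1 x2) : Enc S E (t101 b) (v101 x1 x2) := enc_mul hS (h90 h) (h69 h)

def t102 (b : Bx) : TM := tmul S (t87 b) (t98 b)
noncomputable def v102 (x1 x2 : ℝ) : ℝ := v87 x1 x2 * v98 x1 x2
theorem h102 (h : In b E x1 x2) : Enc S E (t102 b) (v102 x1 x2) := enc_mul hS (h87 h) (h98 h)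

def t103 (b : Bx) : TM := tadd (t101 b) (t102 b)
noncomputable def v103 (x1 x2 : ℝ) : ℝ := v101 x1 x2 + v102 x1 x2
theorem h103 (h : In b E x1 x2) : Enc S E (t103 b) (v103 x1 x2) := enc_add (h101 h) (h102 h)

def t104 (b : Bx) : TM := kyq2_t (t24 b) (t25 b)
noncomputable def v104 (x1 x2 : ℝ) : ℝ := kyq2_v (v24 x1 x2) (v25 x1 x2)
theorem h104 (h : In b E x1 x2) : Enc S E (t104 b) (v104 x1 x2) := kyq2_enc (h24 h) (h25 h)

def t105 (b : Bx) : TM := tadd (t24 b) (t60 b)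
noncomputable def v105 (x1 x2 : ℝ) : ℝ := v24 x1 x2 + v60 x1 x2
theorem h105 (h : In b E x1 x2) : Enc S E (t105 b) (v105 x1 x2) := enc_add (h24 h) (h60 h)

def t106 (b : Bx) : TM := f1p_t (t25 b)
noncomputable def v106 (x1 x2 : ℝ) : ℝ := f1p_v (v25 x1 x2)
theorem h106 (h : In b E x1 x2) : Enc S E (t106 b) (v106 x1 x2) := f1p_enc (h25 h)

def t107 (b : Bx) : TM := tsub (t24 b) (t106 b)
noncomputable def v107 (x1 x2 : ℝ) : ℝ := v24 x1 x2 - v106 x1 x2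
theorem h107 (h : In b E x1 x2) : Enc S E (t107 b) (v107 x1 x2) := enc_sub (h24 h) (h106 h)

def t111 (b : Bx) : TM := tmul S (t58 b) (t104 b)
noncomputable def v111 (x1 x2 : ℝ) : ℝ := v58 x1 x2 * v104 x1 x2
theorem h111 (h : In b E x1 x2) : Enc S E (t111 b) (v111 x1 x2) := enc_mul hS (h58 h) (h104 h)

def t112 (b : Bx) : TM := tinv S (t105 b)
noncomputable def v112 (x1 x2 : ℝ) : ℝ := (v105 x1 x2)⁻¹
theorem h112 (h : In b E x1 x2) : Enc S E (t112 b) (v112 x1 x2) := enc_inv hS (h105 h)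

def t113 (b : Bx) : TM := tmul S (t111 b) (t112 b)
noncomputable def v113 (x1 x2 : ℝ) : ℝ := v111 x1 x2 * v112 x1 x2
theorem h113 (h : In b E x1 x2) : Enc S E (t113 b) (v113 x1 x2) := enc_mul hS (h111 h) (h112 h)

def t114 (b : Bx) : TM := tsub (t103 b) (t113 b)
noncomputable def v114 (x1 x2 : ℝ) : ℝ := v103 x1 x2 - v113 x1 x2
theorem h114 (h : In b E x1 x2) : Enc S E (t114 b) (v114 x1 x2) := enc_sub (h103 h) (h113 h)

def t115 (b : Bx) : TM := tmul S (t7 b) (t23 b)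
noncomputable def v115 (x1 x2 : ℝ) : ℝ := v7 x1 x2 * v23 x1 x2
theorem h115 (h : In b E x1 x2) : Enc S E (t115 b) (v115 x1 x2) := enc_mul hS (h7 h) (h23 h)

def t116 (b : Bx) : TM := tmul S (t1 b) (t0 b)
noncomputable def v116 (x1 x2 : ℝ) : ℝ := v1 x1 x2 * v0 x1 x2
theorem h116 (h : In b E x1 x2) : Enc S E (t116 b) (v116 x1 x2) := enc_mul hS (h1 h) (h0 h)

def t117 (b : Bx) : TM := tsub (t115 b) (t116 b)
noncomputable def v117 (x1 x2 : ℝ) : ℝ := v115 x1 x2 - v116 x1 x2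
theorem h117 (h : In b E x1 x2) : Enc S E (t117 b) (v117 x1 x2) := enc_sub (h115 h) (h116 h)

def t118 (b : Bx) : TM := tinv S (t2 b)
noncomputable def v118 (x1 x2 : ℝ) : ℝ := (v2 x1 x2)⁻¹
theorem h118 (h : In b E x1 x2) : Enc S E (t118 b) (v118 x1 x2) := enc_inv hS (h2 h)

def t119 (b : Bx) : TM := tmul S (t117 b) (t118 b)
noncomputable def v119 (x1 x2 : ℝ) : ℝ := v117 x1 x2 * v118 x1 x2
theorem h119 (h : In b E x1 x2) : Enc S E (t119 b) (v119 x1 x2) := enc_mul hS (h117 h) (h118 h)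

def t120 (b : Bx) : TM := tsub (t119 b) (t9 b)
noncomputable def v120 (x1 x2 : ℝ) : ℝ := v119 x1 x2 - v9 x1 x2
theorem h120 (h : In b E x1 x2) : Enc S E (t120 b) (v120 x1 x2) := enc_sub (h119 h) (h9 h)

def t122 (b : Bx) : TM := tmul S (t7 b) (t52 b)
noncomputable def v122 (x1 x2 : ℝ) : ℝ := v7 x1 x2 * v52 x1 x2
theorem h122 (h : In b E x1 x2) : Enc S E (t122 b) (v122 x1 x2) := enc_mul hS (h7 h) (h52 h)

def t124 (b : Bx) : TM := tneg (t0 b)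
noncomputable def v124 (x1 x2 : ℝ) : ℝ := -(v0 x1 x2)
theorem h124 (h : In b E x1 x2) : Enc S E (t124 b) (v124 x1 x2) := enc_neg (h0 h)

def t126 (b : Bx) : TM := tadd (t122 b) (t0 b)
noncomputable def v126 (x1 x2 : ℝ) : ℝ := v122 x1 x2 + v0 x1 x2
theorem h126 (h : In b E x1 x2) : Enc S E (t126 b) (v126 x1 x2) := enc_add (h122 h) (h0 h)

def t128 (b : Bx) : TM := tmul S (t126 b) (t118 b)
noncomputable def v128 (x1 x2 : ℝ) : ℝ := v126 x1 x2 * v118 x1 x2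
theorem h128 (h : In b E x1 x2) : Enc S E (t128 b) (v128 x1 x2) := enc_mul hS (h126 h) (h118 h)

def t130 (b : Bx) : TM := tsub (t23 b) (t3 b)
noncomputable def v130 (x1 x2 : ℝ) : ℝ := v23 x1 x2 - v3 x1 x2
theorem h130 (h : In b E x1 x2) : Enc S E (t130 b) (v130 x1 x2) := enc_sub (h23 h) (h3 h)

def t132 (b : Bx) : TM := tadd (t114 b) (t5 b)
noncomputable def v132 (x1 x2 : ℝ) : ℝ := v114 x1 x2 + v5 x1 x2
theorem h132 (h : In b E x1 x2) : Enc S E (t132 b) (v132 x1 x2) := enc_add (h114 h) (h5 h)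

def t134 (b : Bx) : TM := tmul S (t52 b) (t33 b)
noncomputable def v134 (x1 x2 : ℝ) : ℝ := v52 x1 x2 * v33 x1 x2
theorem h134 (h : In b E x1 x2) : Enc S E (t134 b) (v134 x1 x2) := enc_mul hS (h52 h) (h33 h)

def t135 (b : Bx) : TM := tsub (t124 b) (t134 b)
noncomputable def v135 (x1 x2 : ℝ) : ℝ := v124 x1 x2 - v134 x1 x2
theorem h135 (h : In b E x1 x2) : Enc S E (t135 b) (v135 x1 x2) := enc_sub (h124 h) (h134 h)

def t140 (b : Bx) : TM := tsub (t3 b) (t23 b)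
noncomputable def v140 (x1 x2 : ℝ) : ℝ := v3 x1 x2 - v23 x1 x2
theorem h140 (h : In b E x1 x2) : Enc S E (t140 b) (v140 x1 x2) := enc_sub (h3 h) (h23 h)

def t141 (b : Bx) : TM := tsub (t3 b) (t25 b)
noncomputable def v141 (x1 x2 : ℝ) : ℝ := v3 x1 x2 - v25 x1 x2
theorem h141 (h : In b E x1 x2) : Enc S E (t141 b) (v141 x1 x2) := enc_sub (h3 h) (h25 h)

def t142 (b : Bx) : TM := qn_t (t0 b) (t130 b) (t128 b) (t135 b) (t132 b)
noncomputable def v142 (x1 x2 : ℝ) : ℝ := qn_v (v0 x1 x2) (v130 x1 x2) (v128 x1 x2) (v135 x1 x2) (v132 x1 x2)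
theorem h142 (h : In b E x1 x2) : Enc S E (t142 b) (v142 x1 x2) := qn_enc (h0 h) (h130 h) (h128 h) (h135 h) (h132 h)

def t143 (b : Bx) : TM := tscale 1 4 (t2 b)
noncomputable def v143 (x1 x2 : ℝ) : ℝ := ((1 : ℕ) : ℝ) / ((4 : ℕ) : ℝ) * v2 x1 x2
theorem h143 (h : In b E x1 x2) : Enc S E (t143 b) (v143 x1 x2) := enc_scale 1 (by norm_num) (h2 h)

def t145 (b : Bx) : TM := tsub (t0 b) (t143 b)
noncomputable def v145 (x1 x2 : ℝ) : ℝ := v0 x1 x2 - v143 x1 x2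
theorem h145 (h : In b E x1 x2) : Enc S E (t145 b) (v145 x1 x2) := enc_sub (h0 h) (h143 h)

def t146 (b : Bx) : TM := tscale 3 4 (t2 b)
noncomputable def v146 (x1 x2 : ℝ) : ℝ := ((3 : ℕ) : ℝ) / ((4 : ℕ) : ℝ) * v2 x1 x2
theorem h146 (h : In b E x1 x2) : Enc S E (t146 b) (v146 x1 x2) := enc_scale 3 (by norm_num) (h2 h)

def t148 (b : Bx) : TM := tsub (t23 b) (t146 b)
noncomputable def v148 (x1 x2 : ℝ) : ℝ := v23 x1 x2 - v146 x1 x2
theorem h148 (h : In b E x1 x2) : Enc S E (t148 b) (v148 x1 x2) := enc_sub (h23 h) (h146 h)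

def t150 (b : Bx) : TM := tsub (t25 b) (t146 b)
noncomputable def v150 (x1 x2 : ℝ) : ℝ := v25 x1 x2 - v146 x1 x2
theorem h150 (h : In b E x1 x2) : Enc S E (t150 b) (v150 x1 x2) := enc_sub (h25 h) (h146 h)

def t151 (_b : Bx) : TM := tconst (Nat.div (Nat.mul 1 S) 16) 0 1
noncomputable def v151 (_x1 _x2 : ℝ) : ℝ := ((1 : ℕ) : ℝ) / ((16 : ℕ) : ℝ)
theorem h151 (_h : In b E x1 x2) : Enc S E (t151 b) (v151 x1 x2) := enc_rat E 1 (by norm_num)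

def t152 (b : Bx) : TM := tsub (t26 b) (t151 b)
noncomputable def v152 (x1 x2 : ℝ) : ℝ := v26 x1 x2 - v151 x1 x2
theorem h152 (h : In b E x1 x2) : Enc S E (t152 b) (v152 x1 x2) := enc_sub (h26 h) (h151 h)

def t153 (b : Bx) : TM := tsub (t20 b) (t151 b)
noncomputable def v153 (x1 x2 : ℝ) : ℝ := v20 x1 x2 - v151 x1 x2
theorem h153 (h : In b E x1 x2) : Enc S E (t153 b) (v153 x1 x2) := enc_sub (h20 h) (h151 h)

def t154 (b : Bx) : TM := tsub (t25 b) (t2 b)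
noncomputable def v154 (x1 x2 : ℝ) : ℝ := v25 x1 x2 - v2 x1 x2
theorem h154 (h : In b E x1 x2) : Enc S E (t154 b) (v154 x1 x2) := enc_sub (h25 h) (h2 h)

def t155 (b : Bx) : TM := tsub (t37 b) (t36 b)
noncomputable def v155 (x1 x2 : ℝ) : ℝ := v37 x1 x2 - v36 x1 x2
theorem h155 (h : In b E x1 x2) : Enc S E (t155 b) (v155 x1 x2) := enc_sub (h37 h) (h36 h)

def t156 (b : Bx) : TM := tadd (t120 b) (t9 b)
noncomputable def v156 (x1 x2 : ℝ) : ℝ := v120 x1 x2 + v9 x1 x2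
theorem h156 (h : In b E x1 x2) : Enc S E (t156 b) (v156 x1 x2) := enc_add (h120 h) (h9 h)

def t157 (b : Bx) : TM := tneg (t156 b)
noncomputable def v157 (x1 x2 : ℝ) : ℝ := -(v156 x1 x2)
theorem h157 (h : In b E x1 x2) : Enc S E (t157 b) (v157 x1 x2) := enc_neg (h156 h)

def g0 (b : Bx) : Bool := and (pos (t58 b)) (and (pos (t22 b)) (and (pos (t50 b)) (and (pos (t59 b)) (and (pos (t73 b)) (and (pos (t68 b)) (and (pos (t93 b)) (and (pos (t105 b)) (and (pos (t107 b)) (and (pos (t31 b)) (or (pos (t20 b)) (pos (t142 b))))))))))))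

def l0 (b : Bx) : Nat := cond (g0 b) 0 (pickb 1 (t142 b) b)

def P0 (x1 x2 : ℝ) : Prop := 0 < v58 x1 x2 ∧ 0 < v22 x1 x2 ∧ 0 < v50 x1 x2 ∧ 0 < v59 x1 x2 ∧ 0 < v73 x1 x2 ∧ 0 < v68 x1 x2 ∧ 0 < v93 x1 x2 ∧ 0 < v105 x1 x2 ∧ 0 < v107 x1 x2 ∧ 0 < v31 x1 x2 ∧ (0 < v20 x1 x2 ∨ 0 < v142 x1 x2)

theorem l0_sound (h : In b E x1 x2) (e : l0 b = 0) : P0 x1 x2 := by
  have e1 : g0 b = true := by
    rcases e2 : g0 b with _ | _
    · unfold l0 at e; rw [e2, cond_false] at e; exact absurd e (pickb_ne _ _ _)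
    · rfl
  exact ⟨pos_sound hS (h58 h) (Bool.and_eq_true_iff.mp e1).1, ⟨pos_sound hS (h22 h) (Bool.and_eq_true_iff.mp (Bool.and_eq_true_iff.mp e1).2).1, ⟨pos_sound hS (h50 h) (Bool.and_eq_true_iff.mp (Bool.and_eq_true_iff.mp (Bool.and_eq_true_iff.mp e1).2).2).1, ⟨pos_sound hS (h59 h) (Bool.and_eq_true_iff.mp (Bool.and_eq_true_iff.mp (Bool.and_eq_true_iff.mp (Bool.and_eq_true_iff.mp e1).2).2).2).1, ⟨pos_sound hS (h73 h) (Bool.and_eq_true_iff.mp (Bool.and_eq_true_iff.mp (Bool.and_eq_true_iff.mp (Bool.and_eq_true_iff.mp (Bool.and_eq_true_iff.mp e1).2).2).2).2).1, ⟨pos_sound hS (h68 h) (Bool.and_eq_true_iff.mp (Bool.and_eq_true_iff.mp (Bool.and_eq_true_iff.mp (Bool.and_eq_true_iff.mp (Bool.and_eq_true_iff.mp (Bool.and_eq_true_iff.mp e1).2).2).2).2).2).1, ⟨pos_sound hS (h93 h) (Bool.and_eq_true_iff.mp (Bool.and_eq_true_iff.mp (Bool.and_eq_true_iff.mp (Bool.and_eq_true_iff.mp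 (Bool.and_eq_true_iff.mp (Bool.and_eq_true_iff.mp (Bool.and_eq_true_iff.mp e1).2).2).2).2).2).2).1, ⟨pos_sound hS (h105 h) (Bool.and_eq_true_iff.mp (Bool.and_eq_true_iff.mp (Bool.and_eq_true_iff.mp (Bool.and_eq_true_iff.mp (Bool.and_eq_true_iff.mp (Bool.and_eq_true_iff.mp (Bool.and_eq_true_iff.mp (Bool.and_eq_true_iff.mp e1).2).2).2).2).2).2).2).1, ⟨pos_sound hS (h107 h) (Bool.and_eq_true_iff.mp (Bool.and_eq_true_iff.mp (Bool.and_eq_true_iff.mp (Bool.and_eq_true_iff.mp (Bool.and_eq_true_iff.mp (Bool.and_eq_true_iff.mp (Bool.and_eq_true_iff.mp (Bool.and_eq_true_iff.mp (Bool.and_eq_true_iff.mp e1).2).2).2).2).2).2).2).2).1, ⟨pos_sound hS (h31 h) (Bool.and_eq_true_iff.mp (Bool.and_eq_true_iff.mp (Bool.and_eq_true_iff.mp (Bool.and_eq_true_iff.mp (Bool.and_eq_true_iff.mp (Bool.and_eq_true_iff.mp (Bool.and_eq_true_iff.mp (Bool.and_eq_true_iff.mp (Bool.and_eq_true_iff.mp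 (Bool.and_eq_true_iff.mp e1).2).2).2).2).2).2).2).2).2).1, ((Bool.or_eq_true_iff.mp (Bool.and_eq_true_iff.mp (Bool.and_eq_true_iff.mp (Bool.and_eq_true_iff.mp (Bool.and_eq_true_iff.mp (Bool.and_eq_true_iff.mp (Bool.and_eq_true_iff.mp (Bool.and_eq_true_iff.mp (Bool.and_eq_true_iff.mp (Bool.and_eq_true_iff.mp (Bool.and_eq_true_iff.mp e1).2).2).2).2).2).2).2).2).2).2).imp (fun a => pos_sound hS (h20 h) a) (fun a => pos_sound hS (h142 h) a))⟩⟩⟩⟩⟩⟩⟩⟩⟩⟩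

def g1 (b : Bx) : Bool := or (pos (t145 b)) (or (pos (t140 b)) (or (pos (t148 b)) (or (pos (t141 b)) (or (pos (t150 b)) (or (pos (t152 b)) (or (pos (t153 b)) (or (pos (t154 b)) (or (pos (t155 b)) (pos (t157 b))))))))))

def l1 (b : Bx) : Nat := cond (g1 b) 0 (l0 b)

def P1 (x1 x2 : ℝ) : Prop := (0 < v145 x1 x2 ∨ 0 < v140 x1 x2 ∨ 0 < v148 x1 x2 ∨ 0 < v141 x1 x2 ∨ 0 < v150 x1 x2 ∨ 0 < v152 x1 x2 ∨ 0 < v153 x1 x2 ∨ 0 < v154 x1 x2 ∨ 0 < v155 x1 x2 ∨ 0 < v157 x1 x2) ∨ (P0 x1 x2)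

theorem l1_sound (h : In b E x1 x2) (e : l1 b = 0) : P1 x1 x2 := by
  unfold l1 at e
  rcases e1 : g1 b with _ | _
  · rw [e1, cond_false] at e
    have z0 : l0 b = 0 := e
    exact Or.inr (l0_sound h z0)
  · exact Or.inl (((Bool.or_eq_true_iff.mp e1).imp (fun a => pos_sound hS (h145 h) a) (fun a => ((Bool.or_eq_true_iff.mp a).imp (fun a => pos_sound hS (h140 h) a) (fun a => ((Bool.or_eq_true_iff.mp a).imp (fun a => pos_sound hS (h148 h) a) (fun a => ((Bool.or_eq_true_iff.mp a).imp (fun a => pos_sound hS (h141 h) a) (fun a => ((Bool.or_eq_true_iff.mp a).imp (fun a => pos_sound hS (h150 h) a) (fun a => ((Bool.or_eq_true_iff.mp a).imp (fun a => pos_sound hS (h152 h) a) (fun a => ((Bool.or_eq_true_iff.mp a).imp (fun a => pos_sound hS (h153 h) a) (fun a => ((Bool.or_eq_true_iff.mp a).imp (fun a => pos_sound hS (h154 h) a) (fun a => ((Bool.or_eq_true_iff.mp a).imp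 (fun a => pos_sound hS (h155 h) a) (fun a => pos_sound hS (h157 h) a)))))))))))))))))))

def f (b : Bx) : Nat := l1 b

/-- the statement -/
def Q (x1 x2 : ℝ) : Prop := P1 x1 x2

theorem f_sound (b : Bx) (hb : f b = 0) (x1 x2 : ℝ) (hm : Mem S b x1 x2) : Q x1 x2 := by
  obtain ⟨E, h⟩ := pt_of_mem hm
  have h : In b E x1 x2 := h
  unfold f at hb
  have e := hb
  have z1 : l1 b = 0 := e
  exact (l1_sound h z1)

/-- the box -/
def b0 : Bx := ⟨232471924, 0, 232471926, 268435456, 0, 268435457⟩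

theorem chk_all {n : ℕ} {b : Bx} (h : chk f n b = true) (x1 x2 : ℝ) (hm : Mem S b x1 x2) : Q x1 x2 :=
  chk_sound (fun b hb x1 x2 hm => f_sound b hb x1 x2 hm) n b h x1 x2 hm


end Pool.Agent.Strip051.LB.ChA00V1_pp_022
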