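import Pool.Agent.Strip051.LB.ChA00V1_pp_022.Defs
import Pool.Agent.Strip051.LB.Slope
import Pool.Agent.Strip051.LB.Star
import Pool.Agent.Strip051.LB.Cf

/-! # LINE tight chart ChA00V1_pp_022: slopes -/

namespace Pool.Agent.Strip051.LB.ChA00V1_pp_022

open Pool.Agent.Strip051.LB Pool.Agent.Strip051.LB.Fn Pool.Agent.Strip051.LB.Fc Pool.Agent.StripNear

set_option maxRecDepth 100000
set_option linter.all false

noncomputable def v38 (x1 x2 : ℝ) : ℝ := v36 x1 x2 - v37 x1 x2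

noncomputable def v40 (x1 x2 : ℝ) : ℝ := -(v5 x1 x2)

noncomputable def v42 (x1 x2 : ℝ) : ℝ := (v41 x1 x2) ^ 2

noncomputable def v44 (x1 x2 : ℝ) : ℝ := -(v43 x1 x2)

noncomputable def v45 (x1 x2 : ℝ) : ℝ := v35 x1 x2 - v42 x1 x2

noncomputable def v46 (x1 x2 : ℝ) : ℝ := (v12 x1 x2) ^ 2

noncomputable def v48 (x1 x2 : ℝ) : ℝ := -(v47 x1 x2)

noncomputable def v49 (x1 x2 : ℝ) : ℝ := v5 x1 x2 - v46 x1 x2

noncomputable def v54 (x1 x2 : ℝ) : ℝ := (v53 x1 x2) ^ 2

noncomputable def v57 (x1 x2 : ℝ) : ℝ := v45 x1 x2 - v54 x1 x2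

noncomputable def v61 (x1 x2 : ℝ) : ℝ := v2 x1 x2 * v60 x1 x2

noncomputable def v62 (x1 x2 : ℝ) : ℝ := v61 x1 x2 - v25 x1 x2

noncomputable def v66 (x1 x2 : ℝ) : ℝ := v62 x1 x2 * v65 x1 x2

noncomputable def v70 (x1 x2 : ℝ) : ℝ := v66 x1 x2 * v69 x1 x2

noncomputable def v71 (x1 x2 : ℝ) : ℝ := v35 x1 x2 - v54 x1 x2

noncomputable def v72 (x1 x2 : ℝ) : ℝ := -(v56 x1 x2)

noncomputable def v92 (x1 x2 : ℝ) : ℝ := -(v52 x1 x2)

noncomputable def v95 (x1 x2 : ℝ) : ℝ := -(v94 x1 x2)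

noncomputable def v100 (x1 x2 : ℝ) : ℝ := v87 x1 x2 * v96 x1 x2

noncomputable def v108 (x1 x2 : ℝ) : ℝ := v60 x1 x2 - v24 x1 x2

noncomputable def v109 (x1 x2 : ℝ) : ℝ := v108 x1 x2 * v104 x1 x2

noncomputable def v110 (x1 x2 : ℝ) : ℝ := v70 x1 x2 - v109 x1 x2

noncomputable def v121 (x1 x2 : ℝ) : ℝ := v7 x1 x2 * v15 x1 x2

noncomputable def v123 (x1 x2 : ℝ) : ℝ := v12 x1 x2 * v0 x1 x2

noncomputable def v125 (x1 x2 : ℝ) : ℝ := v121 x1 x2 - v123 x1 x2

noncomputable def v127 (x1 x2 : ℝ) : ℝ := v125 x1 x2 * v118 x1 x2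

noncomputable def v129 (x1 x2 : ℝ) : ℝ := v127 x1 x2 - v9 x1 x2

noncomputable def v131 (x1 x2 : ℝ) : ℝ := v25 x1 x2 - v3 x1 x2

noncomputable def v133 (x1 x2 : ℝ) : ℝ := v15 x1 x2 - v3 x1 x2

noncomputable def v158 (x1 x2 : ℝ) : ℝ := v53 x1 x2 - v3 x1 x2

structure Cx (x1 x2 : ℝ) : Prop where
  hc : v7 x1 x2 ^ 2 + x1 ^ 2 = 1
  p22 : 0 < v22 x1 x2
  p50 : 0 < v50 x1 x2
  p59 : 0 < v59 x1 x2
  p73 : 0 < v73 x1 x2
  p68 : 0 < v68 x1 x2
  p93 : 0 < v93 x1 x2
  p105 : 0 < v105 x1 x2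
  p107 : 0 < v107 x1 x2
  p31 : 0 < v31 x1 x2

variable {x1 x2 : ℝ}

theorem s3q (x1 x2 : ℝ) : v2 x1 x2 ^ 2 = 3 := by
  rw [v2]; exact s3sq

theorem s3ne (x1 x2 : ℝ) : v2 x1 x2 ≠ 0 := by
  rw [v2]; positivity

theorem s1 (c : Cx x1 x2) : v1 x1 x2 = v12 x1 x2 + v26 x1 x2 * v40 x1 x2 := by
  simp only [v1, v5, v10, v12, v26, v40]
  (try push_cast)
  first | ring | grind

theorem s21 (c : Cx x1 x2) : v21 x1 x2 = v46 x1 x2 + v26 x1 x2 * v48 x1 x2 := by
  have a0 : (v1 x1 x2 + v12 x1 x2) * v1 x1 x2 = (v1 x1 x2 + v12 x1 x2) * (v12 x1 x2 + v26 x1 x2 * v40 x1 x2) := congrArg (fun z => (v1 x1 x2 + v12 x1 x2) * z) (s1 c)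
  try simp only [v1, v5, v10, v12, v21, v26, v40, v46, v47, v48] at a0
  simp only [v1, v5, v10, v12, v21, v26, v40, v46, v47, v48]
  (try push_cast at a0 ⊢)
  first | linear_combination a0 | ring | grind

theorem s22 (c : Cx x1 x2) : v22 x1 x2 = v49 x1 x2 + v26 x1 x2 * v47 x1 x2 := by
  have a1 := s21 c
  try simp only [v1, v5, v10, v12, v22, v26, v47, v48, v49] at a1
  simp only [v1, v5, v10, v12, v22, v26, v47, v48, v49]
  (try push_cast at a1 ⊢)
  first | linear_combination -a1 | ring | grind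

theorem q23 (c : Cx x1 x2) : v49 x1 x2 = v15 x1 x2 ^ 2 := by
  have hc := c.hc
  have h3 := s3q x1 x2
  simp only [v0, v3, v5, v10, v11, v12, v13, v14, v15, v46, v49] at hc ⊢
  push_cast at hc ⊢
  grind

theorem s23 (c : Cx x1 x2) : v23 x1 x2 = v15 x1 x2 + v26 x1 x2 * v52 x1 x2 := by
  have a0 := s22 c
  have e : 0 < Real.sqrt (v22 x1 x2) + v15 x1 x2 := by
    have e := c.p50
    simp only [v0, v5, v13, v15, v22, v23, v50] at e ⊢
    push_cast at e ⊢
    linarith
  have b := sl_sqrt a0 (q23 c) (le_of_lt c.p22) e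
  clear a0
  try simp only [v0, v1, v5, v10, v12, v13, v15, v22, v23, v26, v47, v49, v50, v51, v52] at b
  simp only [v0, v1, v5, v10, v12, v13, v15, v22, v23, v26, v47, v49, v50, v51, v52]
  (try push_cast at b ⊢)
  first | linear_combination b | ring | grind

theorem s24 (c : Cx x1 x2) : v24 x1 x2 = v41 x1 x2 + v26 x1 x2 * v40 x1 x2 := by
  have a1 := s1 c
  try simp only [v1, v5, v10, v12, v24, v26, v40, v41] at a1
  simp only [v1, v5, v10, v12, v24, v26, v40, v41]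
  (try push_cast at a1 ⊢)
  first | linear_combination a1 | ring | grind

theorem s25 (c : Cx x1 x2) : v25 x1 x2 = v53 x1 x2 + v26 x1 x2 * v52 x1 x2 := by
  have a1 := s23 c
  try simp only [v0, v1, v10, v12, v13, v15, v25, v26, v53] at a1
  simp only [v0, v1, v10, v12, v13, v15, v25, v26, v53]
  (try push_cast at a1 ⊢)
  first | linear_combination a1 | ring | grind

theorem s34 (c : Cx x1 x2) : v34 x1 x2 = v42 x1 x2 + v26 x1 x2 * v44 x1 x2 := by
  have a0 : (v24 x1 x2 + v41 x1 x2) * v24 x1 x2 = (v24 x1 x2 + v41 x1 x2) * (v41 x1 x2 + v26 x1 x2 * v40 x1 x2) := congrArg (fun z => (v24 x1 x2 + v41 x1 x2) * z) (s24 c)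
  try simp only [v1, v5, v10, v12, v24, v26, v34, v40, v41, v42, v43, v44] at a0
  simp only [v1, v5, v10, v12, v24, v26, v34, v40, v41, v42, v43, v44]
  (try push_cast at a0 ⊢)
  first | linear_combination a0 | ring | grind

theorem s36 (c : Cx x1 x2) : v36 x1 x2 = v45 x1 x2 + v26 x1 x2 * v43 x1 x2 := by
  have a1 := s34 c
  try simp only [v1, v10, v12, v24, v26, v35, v36, v41, v43, v44, v45] at a1
  simp only [v1, v10, v12, v24, v26, v35, v36, v41, v43, v44, v45]
  (try push_cast at a1 ⊢)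
  first | linear_combination -a1 | ring | grind

theorem s37 (c : Cx x1 x2) : v37 x1 x2 = v54 x1 x2 + v26 x1 x2 * v56 x1 x2 := by
  have a0 : (v25 x1 x2 + v53 x1 x2) * v25 x1 x2 = (v25 x1 x2 + v53 x1 x2) * (v53 x1 x2 + v26 x1 x2 * v52 x1 x2) := congrArg (fun z => (v25 x1 x2 + v53 x1 x2) * z) (s25 c)
  try simp only [v0, v1, v10, v12, v13, v15, v25, v26, v37, v53, v54, v55, v56] at a0
  simp only [v0, v1, v10, v12, v13, v15, v25, v26, v37, v53, v54, v55, v56]
  (try push_cast at a0 ⊢)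
  first | linear_combination a0 | ring | grind

theorem s38 (c : Cx x1 x2) : v38 x1 x2 = v57 x1 x2 + v26 x1 x2 * v58 x1 x2 := by
  have a0 := s36 c
  have a1 := s37 c
  try simp only [v1, v10, v12, v24, v26, v35, v36, v38, v41, v43, v45, v57, v58] at a0
  try simp only [v1, v10, v12, v24, v26, v35, v36, v38, v41, v43, v45, v57, v58] at a1
  simp only [v1, v10, v12, v24, v26, v35, v36, v38, v41, v43, v45, v57, v58]
  (try push_cast at a0 a1 ⊢)
  first | linear_combination a0 - a1 | ring | grind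

theorem s59 (c : Cx x1 x2) : v59 x1 x2 = v71 x1 x2 + v26 x1 x2 * v72 x1 x2 := by
  have a1 := s37 c
  try simp only [v1, v10, v12, v26, v35, v59, v71, v72] at a1
  simp only [v1, v10, v12, v26, v35, v59, v71, v72]
  (try push_cast at a1 ⊢)
  first | linear_combination -a1 | ring | grind

theorem q60 (c : Cx x1 x2) : v71 x1 x2 = v18 x1 x2 ^ 2 := by
  have hc := c.hc
  have h3 := s3q x1 x2
  simp only [v0, v3, v13, v14, v15, v16, v18, v35, v53, v54, v71] at hc ⊢
  push_cast at hc ⊢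
  grind

theorem s60 (c : Cx x1 x2) : v60 x1 x2 = v18 x1 x2 + v26 x1 x2 * v76 x1 x2 := by
  have a0 := s59 c
  have e : 0 < Real.sqrt (v59 x1 x2) + v18 x1 x2 := by
    have e := c.p73
    simp only [v35, v59, v60, v73] at e ⊢
    push_cast at e ⊢
    linarith
  have b := sl_sqrt a0 (q60 c) (le_of_lt c.p59) e
  clear a0
  try simp only [v1, v10, v12, v26, v35, v59, v60, v71, v72, v73, v74, v75, v76] at b
  simp only [v1, v10, v12, v26, v35, v59, v60, v71, v72, v73, v74, v75, v76]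
  (try push_cast at b ⊢)
  first | linear_combination b | ring | grind

theorem s61 (c : Cx x1 x2) : v61 x1 x2 = v77 x1 x2 + v26 x1 x2 * v79 x1 x2 := by
  have a1 : (v2 x1 x2) * v60 x1 x2 = (v2 x1 x2) * (v18 x1 x2 + v26 x1 x2 * v76 x1 x2) := congrArg (fun z => (v2 x1 x2) * z) (s60 c)
  try simp only [v1, v2, v10, v12, v26, v61, v76, v77, v78, v79] at a1
  simp only [v1, v2, v10, v12, v26, v61, v76, v77, v78, v79]
  (try push_cast at a1 ⊢)
  first | linear_combination a1 | ring | grind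

theorem s62 (c : Cx x1 x2) : v62 x1 x2 = v80 x1 x2 + v26 x1 x2 * v81 x1 x2 := by
  have a0 := s61 c
  have a1 := s25 c
  try simp only [v0, v1, v10, v12, v13, v15, v25, v26, v53, v62, v79, v80, v81] at a0
  try simp only [v0, v1, v10, v12, v13, v15, v25, v26, v53, v62, v79, v80, v81] at a1
  simp only [v0, v1, v10, v12, v13, v15, v25, v26, v53, v62, v79, v80, v81]
  (try push_cast at a0 a1 ⊢)
  first | linear_combination a0 - a1 | ring | grind

theorem s63 (c : Cx x1 x2) : v63 x1 x2 = v82 x1 x2 + v26 x1 x2 * v76 x1 x2 := by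
  have a0 := s60 c
  try simp only [v1, v10, v12, v26, v35, v63, v76, v82] at a0
  simp only [v1, v10, v12, v26, v35, v63, v76, v82]
  (try push_cast at a0 ⊢)
  first | linear_combination a0 | ring | grind

theorem s64 (c : Cx x1 x2) : v64 x1 x2 = v83 x1 x2 + v26 x1 x2 * v84 x1 x2 := by
  have a1 : (v2 x1 x2) * v25 x1 x2 = (v2 x1 x2) * (v53 x1 x2 + v26 x1 x2 * v52 x1 x2) := congrArg (fun z => (v2 x1 x2) * z) (s25 c)
  try simp only [v0, v1, v2, v10, v12, v13, v15, v25, v26, v53, v64, v83, v84] at a1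
  simp only [v0, v1, v2, v10, v12, v13, v15, v25, v26, v53, v64, v83, v84]
  (try push_cast at a1 ⊢)
  first | linear_combination a1 | ring | grind

theorem s65 (c : Cx x1 x2) : v65 x1 x2 = v85 x1 x2 + v26 x1 x2 * v86 x1 x2 := by
  have a0 := s63 c
  have a1 := s64 c
  try simp only [v1, v10, v12, v26, v35, v63, v65, v76, v82, v85, v86] at a0
  try simp only [v1, v10, v12, v26, v35, v63, v65, v76, v82, v85, v86] at a1
  simp only [v1, v10, v12, v26, v35, v63, v65, v76, v82, v85, v86]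
  (try push_cast at a0 a1 ⊢)
  first | linear_combination a0 - a1 | ring | grind

theorem s66 (c : Cx x1 x2) : v66 x1 x2 = v87 x1 x2 + v26 x1 x2 * v90 x1 x2 := by
  have a0 : (v65 x1 x2) * v62 x1 x2 = (v65 x1 x2) * (v80 x1 x2 + v26 x1 x2 * v81 x1 x2) := congrArg (fun z => (v65 x1 x2) * z) (s62 c)
  have a1 : (v80 x1 x2) * v65 x1 x2 = (v80 x1 x2) * (v85 x1 x2 + v26 x1 x2 * v86 x1 x2) := congrArg (fun z => (v80 x1 x2) * z) (s65 c)
  try simp only [v0, v1, v10, v12, v13, v15, v25, v26, v35, v53, v62, v63, v65, v66, v76, v79, v80, v81, v82, v85, v86, v87, v88, v89, v90] at a0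
  try simp only [v0, v1, v10, v12, v13, v15, v25, v26, v35, v53, v62, v63, v65, v66, v76, v79, v80, v81, v82, v85, v86, v87, v88, v89, v90] at a1
  simp only [v0, v1, v10, v12, v13, v15, v25, v26, v35, v53, v62, v63, v65, v66, v76, v79, v80, v81, v82, v85, v86, v87, v88, v89, v90]
  (try push_cast at a0 a1 ⊢)
  first | linear_combination a0 + a1 | ring | grind

theorem s67 (c : Cx x1 x2) : v67 x1 x2 = v91 x1 x2 + v26 x1 x2 * v92 x1 x2 := by
  have a1 := s25 c
  try simp only [v0, v1, v2, v10, v12, v13, v15, v25, v26, v53, v67, v91, v92] at a1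
  simp only [v0, v1, v2, v10, v12, v13, v15, v25, v26, v53, v67, v91, v92]
  (try push_cast at a1 ⊢)
  first | linear_combination -a1 | ring | grind

theorem s68 (c : Cx x1 x2) : v68 x1 x2 = v93 x1 x2 + v26 x1 x2 * v95 x1 x2 := by
  have a0 := s67 c
  try simp only [v0, v1, v2, v10, v12, v13, v15, v25, v26, v53, v67, v68, v91, v92, v93, v94, v95] at a0
  simp only [v0, v1, v2, v10, v12, v13, v15, v25, v26, v53, v67, v68, v91, v92, v93, v94, v95]
  (try push_cast at a0 ⊢)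
  first | linear_combination (4 : ℝ) * a0 | ring | grind

theorem s69 (c : Cx x1 x2) : v69 x1 x2 = v96 x1 x2 + v26 x1 x2 * v98 x1 x2 := by
  have a0 := s68 c
  have b := sl_inv a0 (c.p68).ne' (c.p93).ne'
  clear a0
  try simp only [v0, v1, v2, v10, v12, v13, v15, v25, v26, v53, v67, v68, v69, v91, v93, v94, v95, v96, v97, v98] at b
  simp only [v0, v1, v2, v10, v12, v13, v15, v25, v26, v53, v67, v68, v69, v91, v93, v94, v95, v96, v97, v98]
  (try push_cast at b ⊢)
  first | linear_combination b | ring | grind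

theorem s70 (c : Cx x1 x2) : v70 x1 x2 = v100 x1 x2 + v26 x1 x2 * v103 x1 x2 := by
  have a0 : (v69 x1 x2) * v66 x1 x2 = (v69 x1 x2) * (v87 x1 x2 + v26 x1 x2 * v90 x1 x2) := congrArg (fun z => (v69 x1 x2) * z) (s66 c)
  have a1 : (v87 x1 x2) * v69 x1 x2 = (v87 x1 x2) * (v96 x1 x2 + v26 x1 x2 * v98 x1 x2) := congrArg (fun z => (v87 x1 x2) * z) (s69 c)
  try simp only [v1, v10, v12, v26, v70, v90, v100, v101, v102, v103] at a0
  try simp only [v1, v10, v12, v26, v70, v90, v100, v101, v102, v103] at a1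
  simp only [v1, v10, v12, v26, v70, v90, v100, v101, v102, v103]
  (try push_cast at a0 a1 ⊢)
  first | linear_combination a0 + a1 | ring | grind

theorem s115 (c : Cx x1 x2) : v115 x1 x2 = v121 x1 x2 + v26 x1 x2 * v122 x1 x2 := by
  have a1 : (v7 x1 x2) * v23 x1 x2 = (v7 x1 x2) * (v15 x1 x2 + v26 x1 x2 * v52 x1 x2) := congrArg (fun z => (v7 x1 x2) * z) (s23 c)
  try simp only [v0, v1, v10, v12, v13, v15, v26, v115, v121, v122] at a1
  simp only [v0, v1, v10, v12, v13, v15, v26, v115, v121, v122]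
  (try push_cast at a1 ⊢)
  first | linear_combination a1 | ring | grind

theorem s116 (c : Cx x1 x2) : v116 x1 x2 = v123 x1 x2 + v26 x1 x2 * v124 x1 x2 := by
  have a0 : (v0 x1 x2) * v1 x1 x2 = (v0 x1 x2) * (v12 x1 x2 + v26 x1 x2 * v40 x1 x2) := congrArg (fun z => (v0 x1 x2) * z) (s1 c)
  try simp only [v0, v1, v5, v10, v12, v26, v40, v116, v123, v124] at a0
  simp only [v0, v1, v5, v10, v12, v26, v40, v116, v123, v124]
  (try push_cast at a0 ⊢)
  first | linear_combination a0 | ring | grind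

theorem s117 (c : Cx x1 x2) : v117 x1 x2 = v125 x1 x2 + v26 x1 x2 * v126 x1 x2 := by
  have a0 := s115 c
  have a1 := s116 c
  try simp only [v0, v1, v10, v12, v26, v117, v124, v125, v126] at a0
  try simp only [v0, v1, v10, v12, v26, v117, v124, v125, v126] at a1
  simp only [v0, v1, v10, v12, v26, v117, v124, v125, v126]
  (try push_cast at a0 a1 ⊢)
  first | linear_combination a0 - a1 | ring | grind

theorem s119 (c : Cx x1 x2) : v119 x1 x2 = v127 x1 x2 + v26 x1 x2 * v128 x1 x2 := by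
  have a0 : (v118 x1 x2) * v117 x1 x2 = (v118 x1 x2) * (v125 x1 x2 + v26 x1 x2 * v126 x1 x2) := congrArg (fun z => (v118 x1 x2) * z) (s117 c)
  try simp only [v0, v1, v10, v12, v26, v117, v119, v125, v126, v127, v128] at a0
  simp only [v0, v1, v10, v12, v26, v117, v119, v125, v126, v127, v128]
  (try push_cast at a0 ⊢)
  first | linear_combination a0 | ring | grind

theorem s120 (c : Cx x1 x2) : v120 x1 x2 = v129 x1 x2 + v26 x1 x2 * v128 x1 x2 := by
  have a0 := s119 c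
  try simp only [v1, v9, v10, v12, v26, v120, v129] at a0
  simp only [v1, v9, v10, v12, v26, v120, v129]
  (try push_cast at a0 ⊢)
  first | linear_combination a0 | ring | grind

theorem s130 (c : Cx x1 x2) : v130 x1 x2 = v133 x1 x2 + v26 x1 x2 * v52 x1 x2 := by
  have a0 := s23 c
  try simp only [v0, v1, v2, v3, v10, v12, v13, v15, v26, v130, v133] at a0
  simp only [v0, v1, v2, v3, v10, v12, v13, v15, v26, v130, v133]
  (try push_cast at a0 ⊢)
  first | linear_combination a0 | ring | grind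

theorem s131 (c : Cx x1 x2) : v131 x1 x2 = v158 x1 x2 + v26 x1 x2 * v52 x1 x2 := by
  have a0 := s25 c
  try simp only [v0, v1, v2, v3, v10, v12, v13, v15, v25, v26, v53, v131, v158] at a0
  simp only [v0, v1, v2, v3, v10, v12, v13, v15, v25, v26, v53, v131, v158]
  (try push_cast at a0 ⊢)
  first | linear_combination a0 | ring | grind

theorem bD (c : Cx x1 x2) : v57 x1 x2 = 0 := by
  have hc := c.hc
  have h3 := s3q x1 x2
  simp only [v0, v3, v10, v11, v12, v13, v14, v15, v35, v41, v42, v45, v53, v54, v57] at hc ⊢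
  push_cast at hc ⊢
  grind

theorem sD (c : Cx x1 x2) : v38 x1 x2 = v26 x1 x2 * v58 x1 x2 := by
  have h := s38 c
  rw [bD c, zero_add] at h
  exact h

theorem s110 (c : Cx x1 x2) : v110 x1 x2 = v100 x1 x2 + v26 x1 x2 * v114 x1 x2 := by
  have hA := s70 c
  have hd := sD c
  have hs := c.p105
  have hc : v60 x1 x2 ^ 2 = v59 x1 x2 := by
    rw [v60]; exact Real.sq_sqrt (le_of_lt c.p59)
  have hx : v60 x1 x2 - v24 x1 x2 = v38 x1 x2 * (v105 x1 x2)⁻¹ := by
    have g : v60 x1 x2 ^ 2 - v24 x1 x2 ^ 2 = v38 x1 x2 := by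
      rw [hc]; simp only [v0, v1, v24, v25, v34, v35, v36, v37, v38, v59, v105]; push_cast; ring
    have g3 : v105 x1 x2 = v60 x1 x2 + v24 x1 x2 := by
      simp only [v0, v1, v24, v25, v34, v35, v36, v37, v38, v59, v105]; try push_cast
      try ring
    have g2 : 0 < v60 x1 x2 + v24 x1 x2 := by rw [← g3]; exact hs
    rw [g3]; exact diff_of_sq g g2
  have hy : v104 x1 x2 * (v60 x1 x2 - v24 x1 x2) = v104 x1 x2 * (v38 x1 x2 * (v105 x1 x2)⁻¹) := congrArg (fun z => v104 x1 x2 * z) hx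
  have hK : v104 x1 x2 * (v105 x1 x2)⁻¹ * v38 x1 x2 = v104 x1 x2 * (v105 x1 x2)⁻¹ * (v26 x1 x2 * v58 x1 x2) := congrArg (fun z => v104 x1 x2 * (v105 x1 x2)⁻¹ * z) hd
  try simp only [v1, v10, v12, v24, v26, v35, v36, v38, v41, v43, v58, v103, v105, v108, v109, v110, v111, v112, v113, v114] at hA
  try simp only [v1, v10, v12, v24, v26, v35, v36, v38, v41, v43, v58, v103, v105, v108, v109, v110, v111, v112, v113, v114] at hy
  try simp only [v1, v10, v12, v24, v26, v35, v36, v38, v41, v43, v58, v103, v105, v108, v109, v110, v111, v112, v113, v114] at hK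
  simp only [v1, v10, v12, v24, v26, v35, v36, v38, v41, v43, v58, v103, v105, v108, v109, v110, v111, v112, v113, v114]
  (try push_cast at hA hy hK ⊢)
  first | linear_combination (hA - hy - hK) | grind

theorem bE (c : Cx x1 x2) : v129 x1 x2 = 0 := by
  have hc := c.hc
  have h3 := s3q x1 x2
  have g0 : v2 x1 x2 ≠ 0 := s3ne x1 x2
  simp only [v0, v3, v9, v10, v11, v12, v13, v14, v15, v118, v121, v123, v125, v127, v129] at hc ⊢
  push_cast at hc ⊢
  grind

theorem hE (c : Cx x1 x2) : v120 x1 x2 = v26 x1 x2 * v128 x1 x2 := by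
  have h := s120 c
  rw [bE c, zero_add] at h
  exact h

theorem bS (c : Cx x1 x2) : v100 x1 x2 - v33 x1 x2 - v12 x1 x2 = 0 := by
  have hc := c.hc
  have h3 := s3q x1 x2
  have g0 := (c.p31).ne'
  have g1 := (c.p93).ne'
  simp only [v0, v3, v5, v10, v11, v12, v13, v14, v15, v16, v18, v27, v28, v29, v30, v31, v32, v33, v35, v53, v77, v80, v82, v83, v85, v87, v91, v93, v96, v100] at hc g0 g1 ⊢
  push_cast at hc g0 g1 ⊢
  grind

theorem hS (c : Cx x1 x2) : v110 x1 x2 - v33 x1 x2 - v1 x1 x2 = v26 x1 x2 * v132 x1 x2 := by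
  have a3 := s110 c
  have a2 := s1 c
  have b := bS c
  try simp only [v1, v5, v10, v12, v26, v40, v103, v110, v114, v132] at a3
  try simp only [v1, v5, v10, v12, v26, v40, v103, v110, v114, v132] at a2
  try simp only [v1, v5, v10, v12, v26, v40, v103, v110, v114, v132] at b
  try simp only [v1, v5, v10, v12, v26, v40, v103, v110, v114, v132]
  (try push_cast at a3 a2 b ⊢)
  first | linear_combination a3 - a2 + b | grind

theorem bC (c : Cx x1 x2) : v0 x1 x2 * v12 x1 x2 - v133 x1 x2 * v33 x1 x2 = 0 := by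
  have hc := c.hc
  have h3 := s3q x1 x2
  have g0 := (c.p31).ne'
  simp only [v0, v3, v5, v10, v11, v12, v13, v14, v15, v27, v28, v29, v30, v31, v32, v33, v133] at hc g0 ⊢
  push_cast at hc g0 ⊢
  grind

theorem hC (c : Cx x1 x2) : v0 x1 x2 * v1 x1 x2 - v130 x1 x2 * v33 x1 x2 = v26 x1 x2 * v135 x1 x2 := by
  have a2 : v0 x1 x2 * v1 x1 x2 = v0 x1 x2 * (v12 x1 x2 + v26 x1 x2 * v40 x1 x2) := congrArg (fun z => v0 x1 x2 * z) (s1 c)
  have a3 : v33 x1 x2 * v130 x1 x2 = v33 x1 x2 * (v133 x1 x2 + v26 x1 x2 * v52 x1 x2) := congrArg (fun z => v33 x1 x2 * z) (s130 c)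
  have b := bC c
  try simp only [v0, v1, v2, v3, v5, v10, v12, v13, v15, v26, v40, v124, v130, v133, v134, v135] at a2
  try simp only [v0, v1, v2, v3, v5, v10, v12, v13, v15, v26, v40, v124, v130, v133, v134, v135] at a3
  try simp only [v0, v1, v2, v3, v5, v10, v12, v13, v15, v26, v40, v124, v130, v133, v134, v135] at b
  simp only [v0, v1, v2, v3, v5, v10, v12, v13, v15, v26, v40, v124, v130, v133, v134, v135]
  (try push_cast at a2 a3 b ⊢)
  first | linear_combination a2 - a3 + b | grind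

theorem hT (x1 x2 : ℝ) : v131 x1 x2 = v0 x1 x2 + v130 x1 x2 := by
  simp only [v0, v2, v3, v25, v130, v131]
  push_cast
  ring

theorem hG (c : Cx x1 x2) : v130 x1 x2 * (-v33 x1 x2) - v0 x1 x2 * (-v1 x1 x2) = v26 x1 x2 * v135 x1 x2 := by
  have b := hC c
  try simp only [v0, v1, v2, v3, v5, v10, v12, v25, v26, v103, v110, v114, v124, v130, v131, v132, v135] at b
  try simp only [v0, v1, v2, v3, v5, v10, v12, v25, v26, v103, v110, v114, v124, v130, v131, v132, v135]
  (try push_cast at b ⊢)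
  first | linear_combination b | grind

theorem core (c : Cx x1 x2) (hW : 0 ≤ v26 x1 x2) (hWQ : 0 ≤ v26 x1 x2 * v142 x1 x2) (h1 : 0 ≤ v0 x1 x2) (h2 : 0 ≤ v130 x1 x2) (h3 : v0 x1 x2 + v130 x1 x2 ≤ Pool.Agent.StripNear.h0) :
    0 ≤ starn_v (v120 x1 x2) (v0 x1 x2) (v130 x1 x2) ((-v33 x1 x2)) ((-v1 x1 x2)) ((-v110 x1 x2)) := by
  have hD : (-v33 x1 x2) + (-v1 x1 x2) - (-v110 x1 x2) = v26 x1 x2 * v132 x1 x2 := by
    have b := hS c
    linear_combination b
  have k := starn_ge hW h1 h2 h3 (hE c) hD (hG c)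
  refine le_trans hWQ (le_trans (le_of_eq ?_) k)
  rw [v142]

end Pool.Agent.Strip051.LB.ChA00V1_pp_022
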